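import Pool.Agent.Helper97.Ku.GoalsC

/-! Packet FWD: from many branches to the certificate. -/

namespace Pool.Agent.Helper97.Ku.PkFWD

open Set Pool.Agent.Helper97.Ku

/-- Implication below `w`. -/
def Le (w : Cond) (a b : BA) : Prop := ∀ r, r ≤ w → r ∈ a → r ∈ b

theorem Le.refl (w : Cond) (a : BA) : Le w a a := fun _ _ h => h

theorem Le.trans {w : Cond} {a b c : BA} (h : Le w a b) (k : Le w b c) : Le w a c :=
  fun r hr ha => k r hr (h r hr ha)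

theorem Le.mono {w w' : Cond} {a b : BA} (h : Le w a b) (hw : w' ≤ w) : Le w' a b :=
  fun r hr ha => h r (hr.trans hw) ha

theorem Le.inf {w : Cond} {a b a' b' : BA} (h : Le w a a') (k : Le w b b') :
    Le w (a ⊓ b) (a' ⊓ b') := fun r hr ha => ⟨h r hr ha.1, k r hr ha.2⟩

theorem Le.iSup {ι : Sort*} {w : Cond} {a b : ι → BA} (h : ∀ i, Le w (a i) (b i)) :
    Le w (⨆ i, a i) (⨆ i, b i) := by
  intro r hr ha
  rw [RO.mem_iSup] at ha ⊢
  intro q hq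
  obtain ⟨t, ht, i, hi⟩ := ha q hq
  exact ⟨t, ht, i, h i t (ht.trans (hq.trans hr)) hi⟩

theorem Le.iInf {ι : Sort*} {w : Cond} {a b : ι → BA} (h : ∀ i, Le w (a i) (b i)) :
    Le w (⨅ i, a i) (⨅ i, b i) := by
  intro r hr ha
  rw [RO.mem_iInf] at ha ⊢
  intro i
  exact h i r hr (ha i)

theorem Le.himp {w : Cond} {a b a' b' : BA} (h : Le w a' a) (k : Le w b b') :
    Le w (a ⇨ b) (a' ⇨ b') := by
  intro r hr ha
  rw [RO.mem_himp] at ha ⊢
  intro q hq hqa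
  exact k q (hq.trans hr) (ha q hq (h q (hq.trans hr) hqa))

theorem mem_eqB {a b : BA} {w : Cond} : w ∈ eqB a b ↔ Le w a b ∧ Le w b a := by
  unfold eqB
  rw [RO.mem_inf, RO.mem_himp, RO.mem_himp]
  rfl

theorem eqB_symm {a b : BA} {w : Cond} (h : w ∈ eqB a b) : w ∈ eqB b a := by
  rw [mem_eqB] at h ⊢
  exact ⟨h.2, h.1⟩

theorem eqB_trans {a b c : BA} {w : Cond} (h : w ∈ eqB a b) (k : w ∈ eqB b c) :
    w ∈ eqB a c := by
  rw [mem_eqB] at h k ⊢
  exact ⟨h.1.trans k.1, k.2.trans h.2⟩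

theorem mem_iSup_of {ι : Sort*} {a : ι → BA} {p : Cond} (i : ι) (h : p ∈ a i) :
    p ∈ ⨆ i, a i := (le_iSup a i : a i ≤ _) p h

/-- Equality of sets below `w`. -/
def EqA (w : Cond) (a a' : Om → BA) : Prop := ∀ β, w ∈ eqB (a β) (a' β)

theorem EqA.symm {w : Cond} {a a' : Om → BA} (h : EqA w a a') : EqA w a' a :=
  fun β => eqB_symm (h β)

theorem EqA.mono {w w' : Cond} {a a' : Om → BA} (h : EqA w a a') (hw : w' ≤ w) :
    EqA w' a a' := fun β => RO.lower hw (h β)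

theorem ndV_tr (G : Grd Om) {w : Cond} {a a' : Om → BA} (h : EqA w a a') (γ k : Om) :
    Le w (ndV G a γ k) (ndV G a' γ k) := by
  unfold ndV
  refine Le.iInf fun β => Le.iInf fun _ => ?_
  intro r hr ha
  exact eqB_trans (eqB_symm (RO.lower hr (h β))) ha

theorem EAV_tr (G : Grd Om) {w : Cond} {a a' : Om → BA} (h : EqA w a a')
    (E : Om → Om → Om → BA) (n : Om) : Le w (EAV G a E n) (EAV G a' E n) := by
  unfold EAV
  exact Le.iSup fun γ => Le.iSup fun k =>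
    Le.inf (Le.refl _ _) (Le.inf (ndV_tr G h γ k) (Le.refl _ _))

theorem cofV_tr (G : Grd Om) {w : Cond} {a a' : Om → BA} (h : EqA w a a') (ht : FN Om BA)
    (E : Om → Om → Om → BA) : Le w (cofV G ht E a) (cofV G ht E a') := by
  unfold cofV
  exact Le.iInf fun α => Le.iSup fun n => Le.inf (EAV_tr G h E n) (Le.refl _ _)

theorem chnV_tr (G : Grd Om) {w : Cond} {a a' : Om → BA} (h : EqA w a a') (x : FN Om BA)
    (E : Om → Om → Om → BA) : Le w (chnV G x E a) (chnV G x E a') := by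
  unfold chnV
  exact Le.iInf fun n => Le.iInf fun m =>
    Le.himp (Le.inf (EAV_tr G h.symm E n) (EAV_tr G h.symm E m)) (Le.refl _ _)

theorem incV_tr (G : Grd Om) {w : Cond} {a a' b b' : Om → BA} (h : EqA w a a')
    (k : EqA w b b') (ht : FN Om BA) (E : Om → Om → Om → BA) :
    Le w (incV G ht E a b) (incV G ht E a' b') := by
  unfold incV
  exact Le.iSup fun n => Le.iSup fun m => Le.iSup fun α =>
    Le.inf (Le.inf (EAV_tr G h E n) (EAV_tr G k E m)) (Le.refl _ _)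

theorem TreeF.mono {G : Grd Om} {p q : Cond} {x ht : FN Om BA} (h : TreeF G p x ht)
    (hq : q ≤ p) : TreeF G q x ht where
  char k := RO.lower hq (h.char k)
  irr i := RO.lower hq (h.irr i)
  trans i j k := RO.lower hq (h.trans i j k)
  lin i j k := RO.lower hq (h.lin i j k)
  ht_lt i j α β := RO.lower hq (h.ht_lt i j α β)
  ht_ex j α β hl := RO.lower hq (h.ht_ex j α β hl)
  root := RO.lower hq h.root
  split i := RO.lower hq (h.split i)
  pruned i α β hl := RO.lower hq (h.pruned i α β hl)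
  cnt α := RO.lower hq (h.cnt α)

theorem BrF.mono {G : Grd Om} {p q : Cond} {x ht : FN Om BA} {b : Om → BA}
    (h : BrF G p x ht b) (hq : q ≤ p) : BrF G q x ht b where
  ch n m := RO.lower hq (h.ch n m)
  dn n m := RO.lower hq (h.dn n m)
  co α := RO.lower hq (h.co α)

theorem Dn_mono {D D' : Set Coord} {b : BA} (hD : D ⊆ D') (h : Dn D b) : Dn D' b :=
  fun p hp => RO.lower (p.rs_le_rs hD) (h p hp)

/-- The value of a row is a node. -/
theorem row_val {p : Cond} {ξ : Kap} {y : Val} (h : p.v (.row ξ) = some y) :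
    ∃ s, y = .nd s ∧ s ∈ p.S := by
  have h1 := p.v_ok _ _ h
  cases y with
  | nd s => exact ⟨s, rfl, h1⟩
  | od η => exact absurd h1 (by simp [Ok])

/-- The key step. -/
theorem key (hROW : G_ROW) (G : Grd Om) {D : Set Coord} {ξ0 : Kap} {s0 : Set Om} {q : Cond}
    {b : Om → BA} (hg : Good b D ξ0 s0 q) {Lx : Om → Om → BA}
    (hL : ∀ ζ, Coord.row ζ ∈ insert (Coord.row ξ0) D → ∀ p : Cond,
      p ∈ ⨆ ν, ⨅ β, eqB (Lx ν β) (rowN ζ β)) {k0 : Om} (hk : k0 < G.w0)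
    (hk0 : enS G q.S k0 = s0) {a : Om → BA} {w : Cond} (hwq : w ≤ q)
    (hw : w ∈ hyV G Lx q.g k0 a) {ξ : Kap} {s : Set Om} (hv : w.v (.row ξ) = some (.nd s))
    (he : EqA w a (rowN ξ)) :
    ξ ≠ ξ0 ∧ Coord.row ξ ∉ D ∧ ∃ hs : s ∈ w.S, star w D ξ0 s hs ≤ q := by
  obtain ⟨_, hnd, hnl⟩ := hw
  have h1 : Coord.row ξ ∉ insert (Coord.row ξ0) D := by
    intro hmem
    obtain ⟨w1, hw1, ν, hν⟩ := (RO.mem_iSup.mp (hL ξ hmem w)) w le_rfl
    have h2 : w1 ∈ ⨆ β, (eqB (a β) (Lx ν β))ᶜ := by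
      have := RO.lower hw1 hnl
      unfold nlV at this
      rw [RO.mem_iInf] at this
      exact this ν
    obtain ⟨w2, hw2, β, hβ⟩ := (RO.mem_iSup.mp h2) w1 le_rfl
    rw [RO.mem_iInf] at hν
    exact RO.not_mem_compl (eqB_trans (RO.lower (hw2.trans hw1) (he β))
      (eqB_symm (RO.lower hw2 (hν β)))) hβ
  rw [mem_insert_iff, not_or] at h1
  have hlev : lev w q.g = q.S := hwq.2.1
  have hs : s ∈ w.S := by
    obtain ⟨s', h2, h3⟩ := row_val hv
    rw [Val.nd.injEq] at h2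
    rw [h2]; exact h3
  have hs0 : s ∩ Iio q.g = s0 := by
    have h2 : w ∈ ndV G (rowN ξ) q.g k0 := ndV_tr G he q.g k0 w le_rfl hnd
    have h3 := ((hROW G w).2.2.2.2.2.2.2.1 ξ s q.g k0 hv hwq.1 hk).mp h2
    rw [hlev, hk0] at h3
    exact h3.symm
  refine ⟨fun h => h1.1 (by rw [h]), h1.2, hs, ?_⟩
  refine ⟨hwq.1, hwq.2.1, fun c x hx => ?_⟩
  by_cases hc : c = Coord.row ξ0
  · subst hc
    rw [hg.v0, Option.some.injEq] at hx
    refine ⟨.nd s, upd_v_self _ _ _ _, ?_⟩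
    rw [← hx, Val.res, hs0]
  · have hcD : c ∈ D := by
      have : c ∈ insert (Coord.row ξ0) D := hg.sp (by
        simp only [Cond.supp, mem_ofPred_eq, hx]
        simp)
      rw [mem_insert_iff] at this
      exact this.resolve_left hc
    obtain ⟨y, hy, hy'⟩ := hwq.2.2 c x hx
    refine ⟨y, ?_, hy'⟩
    unfold star
    rw [upd_v_ne _ _ _ hc, Cond.rs_v_mem _ hcD]
    exact hy

/-- **Packet FWD.** -/
theorem fwd : G_CAP → G_LIST → G_CONV → G_FD → G_GOOD → G_LL → G_NB → G_ROW → G_ENS →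
    G_ECC → G_EINC → G_FWD := by
  intro hCAP hLIST hCONV hFD hGOOD hLL hNB hROW hENS hECC hEINC G x ht en p hT hE hB
  rw [RO.mem_iSup]
  intro p' hp'
  -- the small set of coordinates
  obtain ⟨D0, _, hD0s, hD0⟩ := hCAP ((Om × Om) ⊕ (Om × Om) ⊕ (Om × Om × Om))
    (Sum.elim (fun i => x.v i.1 i.2) (Sum.elim (fun i => ht.v i.1 i.2)
      (fun i => (en i.1).v i.2.1 i.2.2))) ∅ inferInstance inferInstance
  have hDx : ∀ i j, Dn D0 (x.v i j) := fun i j => hD0 (Sum.inl (i, j))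
  have hDh : ∀ i j, Dn D0 (ht.v i j) := fun i j => hD0 (Sum.inr (Sum.inl (i, j)))
  have hDe : ∀ δ i j, Dn D0 ((en δ).v i j) := fun δ i j => hD0 (Sum.inr (Sum.inr (δ, i, j)))
  obtain ⟨z, hz⟩ := hLIST G D0 hD0s
  obtain ⟨p2, hp2, b, hb1, hb2⟩ := (RO.mem_iSup.mp (hB z)) p' hp'
  have hp2p : p2 ≤ p := hp2.trans hp'
  have hT2 : TreeF G p2 x ht := TreeF.mono hT hp2p
  obtain ⟨hbr, hcap⟩ := hCONV G x ht b p2 hT2 hb1
  have hnc : ∀ q, q ≤ p2 → ¬ Capt (fun n => ⨆ α, b.v α n) D0 q := by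
    intro q hq hc
    exact RO.not_mem_compl (hz b q (hcap D0 hDh q hq hc)) (RO.lower hq hb2)
  have hfd : ∀ q, q ≤ p2 → ∃ r, r ≤ q ∧ ∃ F : Set Coord, F.Finite ∧
      Capt (fun n => ⨆ α, b.v α n) (D0 ∪ F) r := by
    intro q hq
    exact hFD G D0 x ht en _ q hDx hDh hDe (TreeF.mono hT2 hq)
      (fun δ j => RO.lower (hq.trans hp2p) (hE δ j)) (BrF.mono hbr hq)
  obtain ⟨q, hq, D, ξ0, s0, hD0D, hDs, hg⟩ := hGOOD _ D0 p2 hD0s hnc hfd
  have hqp : q ≤ p := hq.trans hp2p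
  have hsm : Small.{0} (insert (Coord.row ξ0) D : Set Coord) := by
    have := hDs
    infer_instance
  let J : Type 1 := {ζ : Kap // Coord.row ζ ∈ insert (Coord.row ξ0) D}
  have hJ : Small.{0} J := by
    have := hsm
    refine small_of_injective (f := fun ζ : J =>
      (⟨Coord.row ζ.1, ζ.2⟩ : (insert (Coord.row ξ0) D : Set Coord))) ?_
    intro ζ ζ' h
    have h1 : Coord.row ζ.1 = Coord.row ζ'.1 := congrArg Subtype.val h
    exact Subtype.ext (Coord.row.inj h1)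
  have hJn : Nonempty J := ⟨⟨ξ0, mem_insert _ _⟩⟩
  obtain ⟨Lx, hLx⟩ := hLL J Om (fun ζ β => rowN ζ.1 β) hJ hJn
  have hL : ∀ ζ, Coord.row ζ ∈ insert (Coord.row ξ0) D → ∀ p : Cond,
      p ∈ ⨆ ν, ⨅ β, eqB (Lx ν β) (rowN ζ β) := fun ζ hζ p => hLx ⟨ζ, hζ⟩ p
  have hs0 : s0 ∈ q.S := by
    obtain ⟨s', h2, h3⟩ := row_val hg.v0
    rw [Val.nd.injEq] at h2
    rw [h2]; exact h3
  obtain ⟨k0, hk, hk0⟩ := (hENS G q.S q.S_ct q.S_ne).2.1 s0 hs0
  have hTq : TreeF G q x ht := TreeF.mono hT hqp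
  have hbq : BrF G q x ht (fun n => ⨆ α, b.v α n) := BrF.mono hbr hq
  have hDx' : ∀ i j, Dn D (x.v i j) := fun i j => Dn_mono hD0D (hDx i j)
  have hDh' : ∀ i j, Dn D (ht.v i j) := fun i j => Dn_mono hD0D (hDh i j)
  refine ⟨q, hq.trans hp2, EN G q D ξ0 (fun n => ⨆ α, b.v α n), ?_⟩
  refine mem_iSup_of Lx (mem_iSup_of q.g (mem_iSup_of k0 ⟨?_, ?_, ?_⟩))
  · rw [bo_true hk]; exact RO.mem_top _
  · rw [RO.mem_iInf]
    intro a
    rw [RO.mem_himp]
    intro r hr hra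
    refine RO.dense fun w hw => ?_
    have hwa := RO.lower hw hra
    obtain ⟨w1, hw1, ξ, s, hv, he⟩ := hNB G a w hwa.1
    have hw1q : w1 ≤ q := hw1.trans (hw.trans hr)
    obtain ⟨hξ, hξD, hs, hst⟩ := key hROW G hg hL hk hk0 hw1q (RO.lower hw1 hwa) hv he
    obtain ⟨h1, h2⟩ := hECC G x ht _ D ξ0 s0 q hDx' hDh' hTq hbq hg w1 ξ s hs hξ hξD hv hst
    have he' : EqA w1 (rowN ξ) a := EqA.symm he
    exact ⟨w1, hw1, cofV_tr G he' ht _ w1 le_rfl h1, chnV_tr G he' x _ w1 le_rfl h2⟩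
  · rw [RO.mem_iInf]
    intro a
    rw [RO.mem_iInf]
    intro a'
    rw [RO.mem_himp]
    intro r hr hra
    refine RO.dense fun w hw => ?_
    obtain ⟨hwa, hwa', hne⟩ := RO.lower hw hra
    obtain ⟨w1, hw1, ξ, s, hv, he⟩ := hNB G a w hwa.1
    obtain ⟨w2, hw2, ξ', s', hv', he'⟩ := hNB G a' w1 (RO.lower hw1 hwa').1
    obtain ⟨y, hy, _⟩ := hw2.2.2 _ _ hv
    obtain ⟨s1, rfl, _⟩ := row_val hy
    have he2 : EqA w2 a (rowN ξ) := EqA.mono he hw2
    have hw2w : w2 ≤ w := hw2.trans hw1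
    have hw2q : w2 ≤ q := hw2w.trans (hw.trans hr)
    obtain ⟨hξ, hξD, hs, hst⟩ := key hROW G hg hL hk hk0 hw2q (RO.lower hw2w hwa) hy he2
    obtain ⟨hξ', hξD', hs', hst'⟩ := key hROW G hg hL hk hk0 hw2q (RO.lower hw2w hwa') hv' he'
    have hξξ : ξ ≠ ξ' := by
      rintro rfl
      have h1 := RO.lower hw2w hne
      unfold neV at h1
      obtain ⟨w3, hw3, β, hβ⟩ := (RO.mem_iSup.mp h1) w2 le_rfl
      exact RO.not_mem_compl (eqB_trans (RO.lower hw3 (he2 β))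
        (eqB_symm (RO.lower hw3 (he' β)))) hβ
    have h1 := hEINC G x ht _ D ξ0 s0 q hDx' hDh' hTq hbq hg w2 ξ ξ' s1 s' hs hs' hξ hξ'
      hξξ hξD hξD' hy hv' hst hst'
    exact ⟨w2, hw2w, incV_tr G (EqA.symm he2) (EqA.symm he') ht _ w2 le_rfl h1⟩

end Pool.Agent.Helper97.Ku.PkFWD
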